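import Mathlib

set_option autoImplicit false
open Real Nat Filter

namespace Pool.Agent.Results.MP_d0186b_co.Cube

/-- The parity of the Zeckendorf digit sum of `P n`. -/
def S (P : Polynomial ℤ) (n : ℕ) : ZMod 2 := ((P.eval (n : ℤ)).toNat.zeckendorf.length : ZMod 2)

open Classical in
/-- Maximum order complexity. -/
noncomputable def M (s : ℕ → ZMod 2) (N : ℕ) : ℕ :=
  if ∀ i, i + 2 ≤ N → s i = s 0 then (if s (N - 1) = s 0 then 0 else N - 1)
  else sInf {m | 0 < m ∧ ∃ f : (Fin m → ZMod 2) → ZMod 2, ∀ i, i + m + 1 ≤ N → s (i + m) = f fun j => s (i + j)}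

def Z (l : List ℕ) : Prop := l.Pairwise (fun a b => b + 2 ≤ a) ∧ ∀ x ∈ l, 2 ≤ x

theorem zi (l : List ℕ) : l.IsZeckendorfRep ↔ Z l := by
  haveI : Trans (fun a b : ℕ => b + 2 ≤ a) (fun a b => b + 2 ≤ a) (fun a b => b + 2 ≤ a) :=
    ⟨fun h1 h2 => by omega⟩
  rw [List.IsZeckendorfRep, List.isChain_iff_pairwise, List.pairwise_append]; simp [Z]

theorem len {l : List ℕ} {n : ℕ} (h : Z l) (e : n = (l.map fib).sum) : n.zeckendorf.length = l.length := by
  rw [e, zeckendorf_sum_fib ((zi l).mpr h)]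

noncomputable def gp : ℝ := goldenRatio
noncomputable def gc : ℝ := goldenConj
theorem c_neg : gc < 0 := goldenConj_neg
theorem c_gt : -1 < gc := neg_one_lt_goldenConj
theorem p_c : gp * gc = -1 := goldenRatio_mul_goldenConj
theorem p_add : gp + gc = 1 := goldenRatio_add_goldenConj
theorem c_sq : gc ^ 2 = gc + 1 := goldenConj_sq
theorem p_sq : gp ^ 2 = gp + 1 := goldenRatio_sq
theorem p_pos : 0 < gp := goldenRatio_pos
theorem p_gt : 1 < gp := one_lt_goldenRatio
theorem p_lt : gp < 2 := goldenRatio_lt_two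
theorem p_pow (n : ℕ) : gp ^ (n + 2) - gp ^ (n + 1) = gp ^ n := goldenRatio_pow_sub_goldenRatio_pow n
theorem p_fib (n : ℕ) : fib (n + 1) - gp * fib n = gc ^ n := fib_succ_sub_goldenRatio_mul_fib n

theorem q0 : 0 < -gc := neg_pos.mpr c_neg
theorem q1 : -gc < 1 := by linarith [c_gt]
theorem qp : gp * -gc = 1 := by rw [mul_neg, p_c, neg_neg]
theorem ab (k : ℕ) : |gc ^ k| = (-gc) ^ k := by rw [abs_pow, abs_of_neg c_neg]
theorem qm {a b : ℕ} (h : a ≤ b) : (-gc) ^ b ≤ (-gc) ^ a := pow_le_pow_of_le_one q0.le q1.le h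
theorem st (a : ℕ) : gp * (-gc) ^ (a + 2) = gp * (-gc) ^ a - (-gc) ^ a ∧
    gp * (-gc) ^ (a + 2) = (-gc) ^ a - (-gc) ^ (a + 2) := by
  have := p_add
  constructor
  · linear_combination (-gc) ^ a * (-gc) * qp + (-gc) ^ a * (-1) * this
  · linear_combination (-gc) ^ a * (-gc) * qp + (-gc) ^ a * c_sq

theorem geo (k : ℕ) : ∀ (l : List ℕ) (T : ℕ), l.Pairwise (fun a b => b + 2 ≤ a) →
    (∀ x ∈ l, k ≤ x ∧ x + 2 ≤ T) → k ≤ T → |(l.map (gc ^ ·)).sum| ≤ gp * ((-gc) ^ k - (-gc) ^ T)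
  | [], T, _, _, h => by simpa using mul_nonneg p_pos.le (sub_nonneg.mpr (qm h))
  | a :: l, T, h1, h2, _ => by
    rw [List.pairwise_cons] at h1
    have := geo k l a h1.2 (fun x hx => ⟨(h2 x (by simp [hx])).1, h1.1 x hx⟩) (h2 a (by simp)).1
    have t := mul_le_mul_of_nonneg_left (qm (h2 a (by simp)).2) p_pos.le
    rw [List.map_cons, List.sum_cons]
    linarith [abs_add_le (gc ^ a) (l.map (gc ^ ·)).sum, ab a, (st a).1]

theorem geo' {k : ℕ} {l : List ℕ} (h1 : l.Pairwise (fun a b => b + 2 ≤ a)) (h2 : ∀ x ∈ l, k ≤ x) :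
    |(l.map (gc ^ ·)).sum| ≤ gp * (-gc) ^ k := by
  have := geo k l (k + l.sum + 2) h1 (fun x hx => ⟨h2 x hx, by have := List.le_sum_of_mem hx; omega⟩) (by omega)
  nlinarith [p_pos, pow_pos q0 (k + l.sum + 2)]

theorem low {K : ℕ} {l : List ℕ} (h1 : l.Pairwise (fun a b => b + 2 ≤ a))
    (h2 : |(l.map (gc ^ ·)).sum| < (-gc) ^ (K + 2)) : ∀ x ∈ l, K < x := by
  rcases l.eq_nil_or_concat' with rfl | ⟨l, k, rfl⟩
  · simp
  simp only [List.pairwise_append, List.mem_singleton, forall_eq] at h1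
  have g := geo' h1.1 h1.2.2
  have : K < k := by
    by_contra! c
    rw [List.map_append, List.sum_append] at h2
    have := abs_sub (((l.map (gc ^ ·)).sum) + ([k].map (gc ^ ·)).sum) (l.map (gc ^ ·)).sum
    simp only [add_sub_cancel_left, List.map_cons, List.map_nil, List.sum_cons, List.sum_nil, add_zero, ab] at this h2
    linarith [qm (add_le_add_left c 2), (st k).2]
  intro x hx
  rcases List.mem_append.mp hx with hx | hx
  · have := h1.2.2 x hx; omega
  · rwa [List.mem_singleton.mp hx]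

theorem f2 (k : ℕ) : (fib (k + 2) : ℝ) = gp ^ 2 * fib k + gc ^ k := by
  rw [fib_add_two]; push_cast
  linear_combination p_fib k - fib k * p_sq

theorem sh : ∀ l : List ℕ, ((((l.map (· + 2)).map fib).sum : ℕ) : ℝ) =
    gp ^ 2 * ((l.map fib).sum : ℕ) + (l.map (gc ^ ·)).sum
  | [] => by simp
  | a :: l => by
    have := sh l
    simp only [List.map_cons, List.sum_cons, cast_add, f2] at this ⊢
    linarith

theorem fb : ∀ k, gp ^ k ≤ fib (k + 2)
  | 0 => by simp
  | 1 => by rw [show fib (1 + 2) = 2 from rfl]; simpa using p_lt.le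
  | k + 2 => by
    rw [fib_add_two (n := k + 2)]; push_cast
    linarith [fb k, fb (k + 1), p_pow k]

def L : ℕ → ℕ
  | 0 => 2
  | 1 => 1
  | k + 2 => L k + L (k + 1)

theorem Lr : ∀ k, (L k : ℝ) = gp ^ k + gc ^ k
  | 0 => by norm_num [L]
  | 1 => by simp only [L, pow_one, p_add, cast_one]
  | k + 2 => by
    rw [L, cast_add, Lr k, Lr (k + 1)]
    linear_combination (-gp ^ k) * p_sq - gc ^ k * c_sq

theorem Lf : ∀ k, L (k + 1) = fib (k + 2) + fib k
  | 0 => rfl
  | 1 => rfl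
  | k + 2 => by
    rw [L, Lf k, Lf (k + 1)]
    have := fib_add_two (n := k + 2); have := fib_add_two (n := k)
    simp only [add_assoc, Nat.reduceAdd] at *; omega

theorem Lp (m : ℕ) {n : ℕ} (h : Even n) : L (m + n) * L n = L (m + 2 * n) + L m := by
  have : gp ^ n * gc ^ n = 1 := by rw [← mul_pow, p_c, h.neg_one_pow]
  rw [← cast_inj (R := ℝ)]; push_cast; simp only [Lr]
  linear_combination (gp ^ m + gc ^ m) * this

theorem Ls {n : ℕ} (h : Even n) : L n ^ 2 = L (2 * n) + 2 := by simpa [sq, L] using Lp 0 h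

theorem Lb (k : ℕ) : gp ^ k ≤ L k + 1 ∧ L k ≤ 2 * gp ^ k := by
  have := abs_le.mp ((ab k).trans_le (qm (zero_le k)))
  have h := one_le_pow₀ (n := k) p_gt.le
  rw [Lr]; simp only [pow_zero] at this; constructor <;> linarith

theorem lt {n K x : ℕ} (h : n < fib K) (hx : x ∈ n.zeckendorf) : x < K := by
  by_contra! c
  have := List.le_sum_of_mem (List.mem_map_of_mem (f := fib) hx)
  rw [sum_zeckendorf_fib] at this
  have := fib_mono c; omega

theorem p4 : 4 < gp ^ 4 ∧ 4 ≤ gp ^ 3 := by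
  have : 2 < √5 := lt_sqrt_of_sq_lt (by norm_num)
  have a : 3 / 2 < gp := by unfold gp goldenRatio; linarith
  constructor <;> nlinarith [p_sq]

theorem key {m i : ℕ} (hm : Even m) (hi : (i : ℝ) ≤ gp ^ m) :
    ((L (3 * m + 12) + i) ^ 2).zeckendorf.length = ((L (3 * m + 14) + i) ^ 2).zeckendorf.length := by
  obtain ⟨l, hl⟩ : ∃ l, l = (2 * i * L (3 * m + 12)).zeckendorf := ⟨_, rfl⟩
  obtain ⟨r, hr⟩ : ∃ l, l = (i ^ 2 + 2).zeckendorf := ⟨_, rfl⟩
  have zl := (zi l).mp (hl ▸ isZeckendorfRep_zeckendorf _)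
  have zr := (zi r).mp (hr ▸ isZeckendorfRep_zeckendorf _)
  have sl : (l.map fib).sum = 2 * i * L (3 * m + 12) := hl ▸ sum_zeckendorf_fib _
  have sr : (r.map fib).sum = i ^ 2 + 2 := hr ▸ sum_zeckendorf_fib _
  have x1 := one_le_pow₀ (n := m) p_gt.le
  have i0 : (0 : ℝ) ≤ i := cast_nonneg i
  have d : |2 * i * (gc ^ (3 * m + 13) + gc ^ (3 * m + 11))| < (-gc) ^ (2 * m + 5 + 2) := by
    have e : (-gc) ^ (2 * m + 5 + 2) = (-gc) ^ (3 * m + 11) * (gp ^ m * gp ^ 4) := by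
      rw [← pow_add, show 3 * m + 11 = 2 * m + 5 + 2 + (m + 4) by ring, pow_add _ _ (m + 4), mul_assoc,
        ← mul_pow, mul_comm _ gp, qp, one_pow, mul_one]
    have := abs_add_le (gc ^ (3 * m + 13)) (gc ^ (3 * m + 11))
    have := qm (show 3 * m + 11 ≤ 3 * m + 13 by omega)
    have p := pow_pos q0 (3 * m + 11)
    rw [abs_mul, abs_of_nonneg (by linarith), e]
    calc _ ≤ 2 * gp ^ m * (2 * (-gc) ^ (3 * m + 11)) := by gcongr; linarith [ab (3 * m + 13), ab (3 * m + 11)]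
      _ < _ := by nlinarith [mul_pos p (zero_lt_one.trans_le x1), p4.1]
  have e1 : ((((l.map (· + 2)).map fib).sum : ℕ) : ℝ) - (2 * i * L (3 * m + 14) : ℕ) =
      (l.map (gc ^ ·)).sum - 2 * i * (gc ^ (3 * m + 13) + gc ^ (3 * m + 11)) := by
    rw [sh, sl, Lf, Lf]; push_cast
    rw [f2 (3 * m + 13), show 3 * m + 13 = 3 * m + 11 + 2 by ring, f2 (3 * m + 11)]; ring
  have e2 : ((l.map (· + 2)).map fib).sum = 2 * i * L (3 * m + 14) := by
    have g := geo' zl.1 zl.2
    have := qm (show 2 ≤ 2 * m + 5 + 2 by omega)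
    have s : gp * (-gc) ^ 2 = 1 - (-gc) ^ 2 := by simpa only [zero_add, pow_zero] using (st 0).2
    have : |((((l.map (· + 2)).map fib).sum : ℕ) : ℝ) - (2 * i * L (3 * m + 14) : ℕ)| < 1 := by
      rw [e1]; linarith [abs_sub (l.map (gc ^ ·)).sum (2 * i * (gc ^ (3 * m + 13) + gc ^ (3 * m + 11)))]
    have : |((((l.map (· + 2)).map fib).sum : ℕ) : ℤ) - (2 * i * L (3 * m + 14) : ℕ)| < 1 := by exact_mod_cast this
    exact_mod_cast sub_eq_zero.mp (Int.abs_lt_one_iff.mp this)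
  rw [e2, sub_self, eq_comm, sub_eq_zero] at e1
  have b1 := low zl.1 (e1 ▸ d)
  have b2 : ∀ x ∈ r, x < 2 * m + 3 + 2 := fun x hx => lt (by
    rw [← cast_lt (α := ℝ)]; refine lt_of_lt_of_le ?_ (fb _)
    rw [pow_add, pow_mul']; push_cast
    nlinarith [p4.2, mul_self_le_mul_self i0 hi]) (hr ▸ hx)
  have b3 : ∀ x ∈ l, x < 6 * m + 20 + 2 := fun x hx => lt (by
    rw [← cast_lt (α := ℝ)]; refine lt_of_lt_of_le ?_ (fb _)
    push_cast
    calc _ ≤ 2 * gp ^ m * (2 * gp ^ (3 * m + 12)) := by gcongr; exact (Lb _).2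
      _ = gp ^ (4 * m + 12) * 4 := by ring
      _ < gp ^ (4 * m + 12) * gp ^ 4 := mul_lt_mul_of_pos_left p4.1 (pow_pos p_pos _)
      _ ≤ _ := by rw [← pow_add]; exact pow_le_pow_right₀ p_gt.le (by omega)) (hl ▸ hx)
  rw [len (l := (6 * m + 25) :: (6 * m + 23) :: (l ++ r)), len (l := (6 * m + 29) :: (6 * m + 27) :: (l.map (· + 2) ++ r))]
  · simp
  · simp only [Z, List.pairwise_cons, List.pairwise_append, List.pairwise_map, List.mem_cons, List.mem_append,
      List.mem_map] at zl zr ⊢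
    refine ⟨⟨?_, ?_, zl.1.imp fun h => by omega, zr.1, ?_⟩, ?_⟩ <;> grind
  · rw [add_sq, Ls (by grind), List.map_cons, List.map_cons, List.map_append, List.sum_cons, List.sum_cons,
      List.sum_append, e2, sr, show 2 * (3 * m + 14) = 6 * m + 27 + 1 by ring, Lf]; ring
  · simp only [Z, List.pairwise_cons, List.pairwise_append, List.mem_cons, List.mem_append] at zl zr ⊢
    refine ⟨⟨?_, ?_, zl.1, zr.1, ?_⟩, ?_⟩ <;> grind
  · rw [add_sq, Ls (by grind), List.map_cons, List.map_cons, List.map_append, List.sum_cons, List.sum_cons,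
      List.sum_append, sl, sr, show 2 * (3 * m + 12) = 6 * m + 23 + 1 by ring, Lf]; ring

theorem dif {m : ℕ} (hm : Even m) (m0 : 0 < m) : ((L (3 * m + 12) + L (m + 4)) ^ 2).zeckendorf.length = 10 ∧
    ((L (3 * m + 14) + L (m + 4)) ^ 2).zeckendorf.length = 9 := by
  have a := Lp (2 * m + 8) (show Even (m + 4) by grind)
  have b := Lp (2 * m + 10) (show Even (m + 4) by grind)
  rw [show 2 * m + 8 + (m + 4) = 3 * m + 12 by ring, show 2 * m + 8 + 2 * (m + 4) = 4 * m + 13 + 2 + 1 by ring] at a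
  rw [show 2 * m + 10 + (m + 4) = 3 * m + 14 by ring, show 2 * m + 10 + 2 * (m + 4) = 4 * m + 15 + 2 + 1 by ring] at b
  constructor
  · refine len (l := [6 * m + 23 + 2, 6 * m + 23, 4 * m + 13 + 6, 4 * m + 13, 2 * m + 5 + 6, 2 * m + 5 + 4,
      2 * m + 5 + 2, 2 * m + 5, 4, 2]) (by clear a b; constructor <;> simp <;> omega) ?_
    rw [add_sq, Ls (by grind), Ls (by grind), mul_assoc, a, show 2 * (3 * m + 12) = 6 * m + 23 + 1 by ring,
      show 2 * (m + 4) = 2 * m + 5 + 2 + 1 by ring, show 2 * m + 8 = 2 * m + 5 + 2 + 1 by ring, Lf, Lf, Lf]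
    have := fib_add_two (n := 2 * m + 5 + 4); have := fib_add_two (n := 2 * m + 5 + 3); have := fib_add_two (n := 2 * m + 5 + 2)
    have := fib_add_two (n := 2 * m + 5 + 1); have := fib_add_two (n := 2 * m + 5)
    have := fib_add_two (n := 4 * m + 13 + 4); have := fib_add_two (n := 4 * m + 13 + 3); have := fib_add_two (n := 4 * m + 13 + 2)
    have := fib_add_two (n := 4 * m + 13 + 1); have := fib_add_two (n := 4 * m + 13)
    simp only [List.map_cons, List.sum_cons, List.map_nil, List.sum_nil, show fib 4 = 3 from rfl, fib_two]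
    clear a b
    simp only [add_assoc, Nat.reduceAdd] at *; omega
  · refine len (l := [6 * m + 27 + 2, 6 * m + 27, 4 * m + 15 + 6, 4 * m + 15, 2 * m + 5 + 8, 2 * m + 5 + 5,
      2 * m + 5, 4, 2]) (by clear a b; constructor <;> simp <;> omega) ?_
    rw [add_sq, Ls (by grind), Ls (by grind), mul_assoc, b, show 2 * (3 * m + 14) = 6 * m + 27 + 1 by ring,
      show 2 * (m + 4) = 2 * m + 5 + 2 + 1 by ring, show 2 * m + 10 = 2 * m + 5 + 4 + 1 by ring, Lf, Lf, Lf, Lf]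
    have := fib_add_two (n := 2 * m + 5 + 6); have := fib_add_two (n := 2 * m + 5 + 5)
    have := fib_add_two (n := 2 * m + 5 + 4); have := fib_add_two (n := 2 * m + 5 + 3); have := fib_add_two (n := 2 * m + 5 + 2)
    have := fib_add_two (n := 2 * m + 5 + 1); have := fib_add_two (n := 2 * m + 5)
    have := fib_add_two (n := 4 * m + 15 + 4); have := fib_add_two (n := 4 * m + 15 + 3); have := fib_add_two (n := 4 * m + 15 + 2)
    have := fib_add_two (n := 4 * m + 15 + 1); have := fib_add_two (n := 4 * m + 15)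
    simp only [List.map_cons, List.sum_cons, List.map_nil, List.sum_nil, show fib 4 = 3 from rfl, fib_two]
    clear a b
    simp only [add_assoc, Nat.reduceAdd] at *; omega

theorem Se (n : ℕ) : S (Polynomial.X ^ 2) n = ((n ^ 2).zeckendorf.length : ZMod 2) := by
  rw [S, Polynomial.eval_pow, Polynomial.eval_X, ← cast_pow, Int.toNat_natCast]

theorem big {m : ℕ} (hm : Even m) (m0 : 0 < m) : gp ^ m < M (S (Polynomial.X ^ 2)) (L (3 * m + 14) + L (m + 4) + 1) := by
  have l1 : L (3 * m + 14) = L (3 * m + 12) + L (3 * m + 13) := rfl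
  have l2 : 2 ≤ L (3 * m + 14) := by
    rw [Lf]; have := fib_pos.mpr (show 0 < 3 * m + 13 by omega)
    have := fib_pos.mpr (show 0 < 3 * m + 13 + 2 by omega); omega
  rw [M, if_neg fun h => by
    have := h 1 (by omega)
    rw [Se, Se, len (l := [2]) (by simp [Z]) (by simp)] at this; simp at this]
  obtain ⟨-, f, hf⟩ := Nat.sInf_mem (s := {k | 0 < k ∧ ∃ f : (Fin k → ZMod 2) → ZMod 2, ∀ i,
    i + k + 1 ≤ L (3 * m + 14) + L (m + 4) + 1 → S (Polynomial.X ^ 2) (i + k) = f fun j => S (Polynomial.X ^ 2) (i + j)})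
    ⟨L (3 * m + 14) + L (m + 4) + 1, by omega, 0, fun i hi => by omega⟩
  generalize sInf (_ : Set ℕ) = k at f hf ⊢
  by_contra! c
  have : ∀ i, i ≤ L (m + 4) → S (Polynomial.X ^ 2) (L (3 * m + 12) + i) = S (Polynomial.X ^ 2) (L (3 * m + 14) + i) := by
    intro i
    induction i using Nat.strong_induction_on with
    | _ i ih =>
      intro hi
      by_cases d : i < k
      · rw [Se, Se, key hm ((cast_le.mpr d.le).trans c)]
      obtain ⟨i, rfl⟩ := Nat.exists_eq_add_of_le' (not_lt.mp d)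
      rw [← add_assoc, ← add_assoc, hf _ (by omega), hf _ (by omega)]
      congr 1; funext j
      rw [add_assoc, add_assoc]; exact ih _ (by omega) (by omega)
  have := this _ le_rfl
  rw [Se, Se, (dif hm m0).1, (dif hm m0).2] at this
  revert this; decide

theorem result : ¬∀ P : Polynomial ℤ, P.Monic → 2 ≤ P.natDegree → (∀ n : ℕ, 0 ≤ P.eval (n : ℤ)) →
    ∃ c C : ℝ, 0 < c ∧ 0 < C ∧ ∀ᶠ N : ℕ in atTop, c * (N : ℝ) ^ (1 / (2 * (P.natDegree : ℝ))) ≤ M (S P) N ∧
      M (S P) N ≤ C * (N : ℝ) ^ (1 / (2 * (P.natDegree : ℝ))) := by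
  intro h
  obtain ⟨c, C, -, hC, h⟩ := h (Polynomial.X ^ 2) (Polynomial.monic_X_pow 2) (by simp) fun n => by simp
  obtain ⟨N, h⟩ := eventually_atTop.mp h
  obtain ⟨k, hk⟩ := pow_unbounded_of_one_lt (N + C ^ 4 * 5 * gp ^ 14) p_gt
  have mono : ∀ {a b : ℕ}, a ≤ b → gp ^ a ≤ gp ^ b := pow_le_pow_right₀ p_gt.le
  have k2 := hk.trans_le (mono (show k ≤ 2 * (k + 1) by omega))
  have b := big (even_two_mul (k + 1)) (by omega)
  generalize 2 * (k + 1) = m at k2 b
  have p := p_pos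
  have t : 0 ≤ C ^ 4 * 5 * gp ^ 14 := by positivity
  have u := (h (L (3 * m + 14) + L (m + 4) + 1) (by
    rw [← cast_le (α := ℝ)]; push_cast
    linarith [(Lb (m + 4)).1, mono (show m ≤ m + 4 by omega), cast_nonneg (α := ℝ) (L (3 * m + 14))])).2
  have v := pow_le_pow_left₀ (by positivity) (b.le.trans u) 4
  rw [mul_pow, ← rpow_natCast (_ ^ _ : ℝ) 4, ← rpow_natCast (_ ^ (_ : ℝ) : ℝ) 4, ← rpow_mul (cast_nonneg _),
    rpow_natCast] at v
  norm_num at v
  have w : (L (3 * m + 14) + L (m + 4) + 1 : ℝ) ≤ 5 * gp ^ 14 * (gp ^ m) ^ 3 := by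
    rw [mul_assoc, ← pow_mul, ← pow_add, show 14 + m * 3 = 3 * m + 14 by ring]
    linarith [(Lb (m + 4)).2, (Lb (3 * m + 14)).2, mono (show m + 4 ≤ 3 * m + 14 by omega),
      mono (zero_le (3 * m + 14)), pow_zero gp]
  have z : (gp ^ m) ^ 3 * gp ^ m ≤ (gp ^ m) ^ 3 * (C ^ 4 * 5 * gp ^ 14) := by
    nlinarith [mul_le_mul_of_nonneg_left w (show 0 ≤ C ^ 4 by positivity)]
  linarith [le_of_mul_le_mul_left z (by positivity), cast_nonneg (α := ℝ) N]

end Pool.Agent.Results.MP_d0186b_co.Cube
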